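import Pool.Agent.H.MP_ae75a9_co.A

set_option autoImplicit false
open MvPolynomial Pool.Agent.H.MP_ae75a9_co

namespace Pool.Agent.Results.MP_dd0c5a_co.No

theorem result (k : Type) [Field k] :
    (∃ o : LinearOrder (Pt 4), ∀ M N, twos N < twos M → o.lt M N) ∧
    ∀ [LinearOrder (Pt 4)], (∀ M N : Pt 4, twos N < twos M → M < N) →
      (∃ G, IsRGB (tor k 4) G) ∧ ∀ G, IsRGB (tor k 4) G → ∃ u v, u ≠ v ∧
        monomial u 1 - monomial v 1 ∈ G ∧ u.degree = 3 ∧ v.degree = 3 ∧ mat v = mat u ∧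
        ∃ V : Set (Fin 4), V.Nonempty ∧ Vᶜ.Nonempty ∧ ∀ i ∈ V, ∀ j ∈ Vᶜ, mat u i j = 0 := by
  refine ⟨ord 4, fun ho => ⟨ex (tor_iff k 4) fun _ _ h => (LL_eq.1 h).1, fun G hG => ?_⟩⟩
  obtain ⟨u, v, a, b, c, d, e, f⟩ := main ho k hG
  refine ⟨u, v, a, b, c, d, e, {3}, ⟨3, rfl⟩, ⟨0, by simp⟩, ?_⟩
  rintro _ rfl j h
  rw [f]; fin_cases j <;> simp at h ⊢

end Pool.Agent.Results.MP_dd0c5a_co.No
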